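import Pool.Agent.H.MP_321233_an.Step

set_option autoImplicit false
open Filter Topology Finset Metric MeasureTheory
open scoped ENNReal ComplexConjugate

namespace Pool.Agent.H.MP_459ac8_an

abbrev Cir := AddCircle (1 : ℝ)

abbrev Y := C(Cir, ℂ)

noncomputable abbrev mu : Measure Cir := AddCircle.haarAddCircle

noncomputable def zz : Y := fourier 1

theorem norm_zz (x : Cir) : ‖zz x‖ = 1 := by simp [zz]

theorem zz_pow (m : ℕ) : zz ^ m = fourier (m : ℤ) := by
  induction m with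
  | zero => ext x; simp
  | succ m ih =>
    ext x
    rw [pow_succ, ih, Nat.cast_succ, fourier_add]
    rfl

theorem norm_zz_pow (m : ℕ) : ‖zz ^ m‖ = 1 := by rw [zz_pow, fourier_norm]

noncomputable def G (a : ℂ) (m : ℕ) : Y := ∑' b : ℕ, (a • zz ^ m) ^ b

theorem G_hasSum {a : ℂ} (ha : ‖a‖ < 1) (m : ℕ) : HasSum (fun b : ℕ => (a • zz ^ m) ^ b) (G a m) :=
  (summable_geometric_of_norm_lt_one (by rwa [norm_smul, norm_zz_pow, mul_one])).hasSum

theorem one_sub_ne {a : ℂ} (ha : ‖a‖ < 1) (m : ℕ) (x : Cir) : 1 - a * zz x ^ m ≠ 0 := by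
  intro h
  have h1 : ‖a * zz x ^ m‖ = ‖a‖ := by rw [norm_mul, norm_pow, norm_zz, one_pow, mul_one]
  rw [← sub_eq_zero.1 h, norm_one] at h1
  exact ha.ne h1.symm

theorem G_apply {a : ℂ} (ha : ‖a‖ < 1) (m : ℕ) (x : Cir) : G a m x = (1 - a * zz x ^ m)⁻¹ := by
  have h := mul_neg_geom_series (a • zz ^ m) (by rwa [norm_smul, norm_zz_pow, mul_one])
  have h2 := congrArg (fun f : Y => f x) h
  simp only [ContinuousMap.mul_apply, ContinuousMap.sub_apply, ContinuousMap.one_apply,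
    ContinuousMap.smul_apply, ContinuousMap.pow_apply, smul_eq_mul] at h2
  exact eq_inv_of_mul_eq_one_right h2

theorem integ (f : Y) : Integrable f mu :=
  f.continuous.integrable_of_hasCompactSupport (HasCompactSupport.of_compactSpace _)

noncomputable def intC : Y →L[ℂ] ℂ :=
  LinearMap.mkContinuous
    { toFun := fun f => ∫ x, f x ∂mu
      map_add' := fun f g => integral_add (integ f) (integ g)
      map_smul' := fun c f => integral_smul c f } 1 fun f => by
    simpa using norm_integral_le_of_norm_le_const (μ := mu)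
      (Eventually.of_forall fun x => f.norm_coe_le_norm x)

theorem intC_apply (f : Y) : intC f = ∫ x, f x ∂mu := rfl

theorem intC_fourier (n : ℤ) : intC (fourier n) = if n = 0 then 1 else 0 := by
  have h := congrFun (fourierCoeff_fourier (T := 1) n) 0
  rw [fourierCoeff] at h
  simp only [neg_zero, fourier_zero, one_smul] at h
  rw [intC_apply, h, Pi.single_apply]
  simp [eq_comm]

theorem intC_G {a : ℂ} (ha : ‖a‖ < 1) {m : ℕ} (hm : m ≠ 0) : intC (G a m) = 1 := by
  have h := (G_hasSum ha m).mapL intC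
  have h2 : ∀ b : ℕ, intC ((a • zz ^ m) ^ b) = if b = 0 then 1 else 0 := by
    intro b
    rw [smul_pow, ← pow_mul, map_smul, zz_pow, intC_fourier]
    by_cases hb : b = 0
    · simp [hb]
    · simp [hb, hm]
  simp only [h2] at h
  exact h.unique (hasSum_ite_eq 0 1)

theorem sq_G {a : ℂ} (ha : ‖a‖ < 1) (m : ℕ) (x : Cir) :
    (1 - ‖a‖ ^ 2) * ‖G a m x‖ ^ 2 = 2 * (G a m x).re - 1 := by
  have h1 : ‖a‖ = ‖a * zz x ^ m‖ := by rw [norm_mul, norm_pow, norm_zz, one_pow, mul_one]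
  have h2 := one_sub_ne ha m x
  rw [G_apply ha, h1]
  generalize a * zz x ^ m = u at h2
  have h3 : Complex.normSq (1 - u) ≠ 0 := by simpa using h2
  rw [norm_inv, inv_pow, Complex.sq_norm, Complex.sq_norm, Complex.inv_re]
  field_simp
  simp [Complex.normSq_apply]
  ring

theorem int_sq_G {a : ℂ} (ha : ‖a‖ < 1) {m : ℕ} (hm : m ≠ 0) :
    ∫ x, ‖G a m x‖ ^ 2 ∂mu ≤ (1 - ‖a‖)⁻¹ := by
  have h0 := norm_nonneg a
  have h1 : (1 - ‖a‖ ^ 2) * ∫ x, ‖G a m x‖ ^ 2 ∂mu = 1 := by
    rw [← integral_const_mul]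
    simp only [sq_G ha]
    have h2 : Integrable (fun x => (G a m x).re) mu := (integ (G a m)).re
    rw [integral_sub (h2.const_mul 2) (integrable_const _), integral_const_mul]
    have h3 := integral_re (integ (G a m))
    simp only [RCLike.re_to_complex] at h3
    rw [h3, ← intC_apply, intC_G ha hm]
    simp
    norm_num
  have h2 : 0 ≤ ∫ x, ‖G a m x‖ ^ 2 ∂mu := integral_nonneg fun x => by positivity
  rw [← one_div, le_div_iff₀ (by linarith)]
  nlinarith [mul_nonneg h2 (mul_nonneg h0 (sub_pos.2 ha).le)]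

theorem norm_G_le {a : ℂ} (ha : ‖a‖ < 1) (m : ℕ) (x : Cir) : ‖G a m x‖ ≤ (1 - ‖a‖)⁻¹ := by
  rw [G_apply ha, norm_inv]
  apply inv_anti₀ (by linarith)
  have h1 : ‖a * zz x ^ m‖ = ‖a‖ := by rw [norm_mul, norm_pow, norm_zz, one_pow, mul_one]
  have := norm_sub_norm_le (1 : ℂ) (a * zz x ^ m)
  rwa [norm_one, h1] at this

variable (p : ℝ≥0∞) [Fact (1 ≤ p)]

noncomputable abbrev io : Y →L[ℂ] Lp ℂ p mu := ContinuousMap.toLp p mu ℂ

theorem io_norm_le (f : Y) : ‖io p f‖ ≤ ‖f‖ := by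
  have h := ContinuousMap.toLp_norm_le (p := p) (𝕜 := ℂ) (E := ℂ) mu
  refine ((io p).le_opNorm f).trans ?_
  simp only [measureUnivNNReal, measure_univ, ENNReal.toNNReal_one, NNReal.coe_one,
    Real.one_rpow] at h
  exact mul_le_of_le_one_left (norm_nonneg _) h

theorem exists_Phi (hp : p ≠ ∞) : ∃ (Φ : ℝ → ℝ) (β : ℝ), 0 ≤ β ∧ β < 1 ∧
    (∀ t, 0 < t → 0 ≤ Φ t) ∧
    (∀ a : ℂ, ‖a‖ < 1 → ∀ j m : ℕ, m ≠ 0 → ‖io p (zz ^ j * G a m)‖ ≤ Φ (1 - ‖a‖)) ∧
    ∀ r : ℝ, 0 ≤ r → r < 1 → Φ (1 - r) ≤ 2 * β * Φ (1 - r ^ 2) := by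
  obtain ⟨Q, hQ⟩ := ENNReal.exists_nat_gt hp
  have hQ' : p ≤ ((Q + 2 : ℕ) : ℝ≥0∞) := hQ.le.trans (by exact_mod_cast Nat.le_add_right Q 2)
  set τ : ℝ := ((Q + 2 : ℕ) : ℝ)⁻¹ with hτ
  have hτ0 : 0 < τ := by positivity
  have hτ1 : τ ≤ 1 := inv_le_one_of_one_le₀ (by push_cast; linarith [(Q.cast_nonneg : (0 : ℝ) ≤ Q)])
  refine ⟨fun t => t ^ (τ - 1), (2 : ℝ) ^ (-τ), by positivity,
    Real.rpow_lt_one_of_one_lt_of_neg one_lt_two (by linarith), fun t ht => by positivity,
    fun a ha j m hm => ?_, fun r h0 h1 => ?_⟩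
  · set f : Y := zz ^ j * G a m with hf
    have hmem : MemLp f ((Q + 2 : ℕ) : ℝ≥0∞) mu :=
      f.continuous.memLp_of_hasCompactSupport (HasCompactSupport.of_compactSpace _)
    have ha' : 0 < 1 - ‖a‖ := by linarith
    rw [Lp.norm_def, eLpNorm_congr_ae (ContinuousMap.coeFn_toLp (p := p) mu f)]
    refine ENNReal.toReal_le_of_le_ofReal (by positivity)
      ((eLpNorm_le_eLpNorm_of_exponent_le hQ' hmem.1).trans ?_)
    rw [hmem.eLpNorm_eq_integral_rpow_norm (by simp) (by simp)]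
    apply ENNReal.ofReal_le_ofReal
    rw [ENNReal.toReal_natCast]
    simp only [Real.rpow_natCast]
    have h1 : ∫ x, ‖f x‖ ^ (Q + 2) ∂mu ≤ ((1 - ‖a‖)⁻¹) ^ (Q + 1) := by
      calc ∫ x, ‖f x‖ ^ (Q + 2) ∂mu ≤ ∫ x, ((1 - ‖a‖)⁻¹) ^ Q * ‖G a m x‖ ^ 2 ∂mu := by
            refine integral_mono_of_nonneg (Eventually.of_forall fun x => by positivity) ?_
              (Eventually.of_forall fun x => ?_)
            · exact (Continuous.integrable_of_hasCompactSupport (by fun_prop)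
                (HasCompactSupport.of_compactSpace _))
            · simp only [hf, ContinuousMap.mul_apply, ContinuousMap.pow_apply, norm_mul, norm_pow,
                norm_zz, one_pow, one_mul, pow_add]
              gcongr
              exact norm_G_le ha m x
        _ ≤ _ := by
            rw [integral_const_mul, pow_succ]
            gcongr
            exact int_sq_G ha hm
    refine (Real.rpow_le_rpow (integral_nonneg fun x => by positivity) h1 hτ0.le).trans
      (le_of_eq ?_)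
    rw [← Real.rpow_natCast, ← Real.rpow_mul (by positivity), Real.inv_rpow ha'.le,
      ← Real.rpow_neg ha'.le]
    congr 1
    rw [hτ]
    push_cast
    field_simp
    ring
  · have h2 : (1 - r ^ 2) / 2 ≤ 1 - r := by nlinarith
    have h3 : 0 < 1 - r ^ 2 := by nlinarith
    refine (Real.rpow_le_rpow_of_nonpos (by positivity) h2 (by linarith)).trans (le_of_eq ?_)
    rw [Real.div_rpow h3.le (by norm_num), Real.rpow_sub two_pos, Real.rpow_one,
      Real.rpow_neg (by norm_num)]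
    field_simp

end Pool.Agent.H.MP_459ac8_an
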