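import Pool.Agent.H.MP_459ac8_an.A

set_option autoImplicit false
open Filter Topology Finset Metric MeasureTheory Pool.Agent.H.MP_321233_an
open scoped ENNReal ComplexConjugate

namespace Pool.Agent.H.MP_459ac8_an

noncomputable def sq (a : ℂ) : ℂ := a ^ ((2 : ℂ)⁻¹)

theorem sq_sq (a : ℂ) : sq a ^ 2 = a := Complex.cpow_ofNat_inv_pow a 2

noncomputable def root : ℕ → ℂ → ℕ → ℂ
  | 0, a, _ => a
  | s + 1, a, i => if i < 2 ^ s then root s (sq a) i else root s (-sq a) (i - 2 ^ s)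

theorem root_pow (s : ℕ) : ∀ (a : ℂ) (i : ℕ), root s a i ^ 2 ^ s = a := by
  induction s with
  | zero => intro a i; simp [root]
  | succ s ih =>
    intro a i
    rw [root, pow_succ, pow_mul]
    split_ifs
    · rw [ih, sq_sq]
    · rw [ih, neg_sq, sq_sq]

theorem sq_ne {a : ℂ} (ha : a ≠ 0) : sq a ≠ 0 := fun h => ha (by rw [← sq_sq a, h]; simp)

theorem root_inj (s : ℕ) : ∀ (a : ℂ), a ≠ 0 → ∀ i < 2 ^ s, ∀ l < 2 ^ s,
    root s a i = root s a l → i = l := by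
  induction s with
  | zero => intro a _ i hi l hl _; omega
  | succ s ih =>
    intro a ha i hi l hl h
    have hne : sq a ≠ -sq a := fun e => sq_ne ha (by linear_combination e / 2)
    rw [pow_succ] at hi hl
    simp only [root] at h
    split_ifs at h with h1 h2 h2
    · exact ih _ (sq_ne ha) i h1 l h2 h
    · exact (hne ((root_pow s _ i).symm.trans (h ▸ root_pow s _ _))).elim
    · exact (hne ((root_pow s _ l).symm.trans (h ▸ root_pow s _ _))).elim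
    · have := ih _ (neg_ne_zero.2 (sq_ne ha)) _ (by omega) _ (by omega) h
      omega

theorem ident0 {v : ℂ} (h0 : v ≠ 0) (h1 : ‖v‖ < 1) (s a j : ℕ) :
    (2 ^ s * v⁻¹ ^ (2 * a)) • (zz ^ j * G v (2 ^ s)) +
      (2 ^ s * (-v)⁻¹ ^ (2 * a)) • (zz ^ j * G (-v) (2 ^ s)) =
    (2 ^ (s + 1) * (v ^ 2)⁻¹ ^ a) • (zz ^ j * G (v ^ 2) (2 ^ (s + 1))) := by
  have h2 : ‖v ^ 2‖ < 1 := by rw [norm_pow]; exact pow_lt_one₀ (norm_nonneg _) h1 two_ne_zero
  have h3 : ‖-v‖ < 1 := by rwa [norm_neg]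
  ext x
  have e1 := one_sub_ne h1 (2 ^ s) x
  have e2 := one_sub_ne h3 (2 ^ s) x
  have e3 := one_sub_ne h2 (2 ^ (s + 1)) x
  simp only [ContinuousMap.add_apply, ContinuousMap.smul_apply, ContinuousMap.mul_apply,
    ContinuousMap.pow_apply, smul_eq_mul, G_apply h1, G_apply h2, G_apply h3]
  rw [pow_succ (2 : ℕ) s, pow_mul (zz x)] at e3 ⊢
  rw [pow_mul, pow_mul, inv_pow (-v), neg_sq, inv_pow v]
  generalize zz x ^ 2 ^ s = w at *
  generalize (v ^ 2)⁻¹ ^ a = t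
  rw [neg_mul, sub_neg_eq_add] at e2 ⊢
  field_simp
  ring

theorem ident1 {v : ℂ} (h0 : v ≠ 0) (h1 : ‖v‖ < 1) (s a j : ℕ) :
    (2 ^ s * v⁻¹ ^ (2 * a + 1)) • (zz ^ j * G v (2 ^ s)) +
      (2 ^ s * (-v)⁻¹ ^ (2 * a + 1)) • (zz ^ j * G (-v) (2 ^ s)) =
    (2 ^ (s + 1) * (v ^ 2)⁻¹ ^ a) • (zz ^ (2 ^ s + j) * G (v ^ 2) (2 ^ (s + 1))) := by
  have h2 : ‖v ^ 2‖ < 1 := by rw [norm_pow]; exact pow_lt_one₀ (norm_nonneg _) h1 two_ne_zero
  have h3 : ‖-v‖ < 1 := by rwa [norm_neg]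
  ext x
  have e1 := one_sub_ne h1 (2 ^ s) x
  have e2 := one_sub_ne h3 (2 ^ s) x
  have e3 := one_sub_ne h2 (2 ^ (s + 1)) x
  simp only [ContinuousMap.add_apply, ContinuousMap.smul_apply, ContinuousMap.mul_apply,
    ContinuousMap.pow_apply, smul_eq_mul, G_apply h1, G_apply h2, G_apply h3]
  rw [pow_succ (2 : ℕ) s, pow_mul (zz x)] at e3 ⊢
  rw [pow_succ v⁻¹, pow_succ (-v)⁻¹, pow_mul, pow_mul, inv_pow (-v), neg_sq, inv_pow v,
    pow_add (zz x)]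
  generalize zz x ^ 2 ^ s = w at *
  generalize (v ^ 2)⁻¹ ^ a = t
  rw [neg_mul, sub_neg_eq_add] at e2 ⊢
  field_simp
  ring

variable (p : ℝ≥0∞) [Fact (1 ≤ p)]

theorem level1 {Φ : ℝ → ℝ} {β : ℝ} (hβ0 : 0 ≤ β) (hβ1 : β < 1) (hΦ0 : ∀ t, 0 < t → 0 ≤ Φ t)
    (hΦ1 : ∀ a : ℂ, ‖a‖ < 1 → ∀ j m : ℕ, m ≠ 0 → ‖io p (zz ^ j * G a m)‖ ≤ Φ (1 - ‖a‖))
    (hΦ2 : ∀ r : ℝ, 0 ≤ r → r < 1 → Φ (1 - r) ≤ 2 * β * Φ (1 - r ^ 2)) (s : ℕ) :
    ∀ (u : ℂ), u ≠ 0 → ‖u‖ < 1 → ∀ a j, j < 2 ^ s → ∀ (n0 : ℕ) (x : ℕ → Lp ℂ p mu),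
      (∀ i < 2 ^ s, x (n0 + i) = io p (G (root s u i) 1)) →
      Step x n0 (n0 + 2 ^ s) (io p ((2 ^ s * u⁻¹ ^ a) • (zz ^ j * G u (2 ^ s))))
        ((1 - β)⁻¹ * 2 ^ s * ‖u‖⁻¹ ^ (a + 1) * Φ (1 - ‖u‖)) := by
  have hK : 1 ≤ (1 - β)⁻¹ := one_le_inv₀ (by linarith) |>.2 (by linarith)
  have hF : ∀ (s : ℕ) (u : ℂ), u ≠ 0 → ‖u‖ < 1 → ∀ a j : ℕ,
      ‖io p ((2 ^ s * u⁻¹ ^ a) • (zz ^ j * G u (2 ^ s)))‖ ≤
        2 ^ s * ‖u‖⁻¹ ^ (a + 1) * Φ (1 - ‖u‖) := by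
    intro s u h0 h1 a j
    rw [map_smul, norm_smul, norm_mul, norm_pow, norm_pow, norm_inv, Complex.norm_two]
    have h2 : 1 ≤ ‖u‖⁻¹ := (one_le_inv₀ (norm_pos_iff.2 h0)).2 h1.le
    gcongr
    · exact Nat.le_succ a
    · exact hΦ1 u h1 j _ (by positivity)
  induction s with
  | zero =>
    intro u h0 h1 a j hj n0 x hx
    obtain rfl : j = 0 := by omega
    have h2 := Step.single x n0 (2 ^ 0 * u⁻¹ ^ a)
    have h3 := hF 0 u h0 h1 a 0
    have h4 : x n0 = io p (G u 1) := hx 0 one_pos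
    rw [h4, ← map_smul] at h2
    simp only [pow_zero, one_mul, mul_one] at h2 h3 ⊢
    refine h2.mono (h3.trans ?_)
    rw [mul_assoc]
    exact le_mul_of_one_le_left (mul_nonneg (by positivity) (hΦ0 _ (by linarith))) hK
  | succ s ih =>
    intro u h0 h1 a j hj n0 x hx
    obtain ⟨v, hv, rfl⟩ : ∃ v, v = sq u ∧ v ^ 2 = u := ⟨_, rfl, sq_sq u⟩
    have hv0 : v ≠ 0 := fun h => h0 (by simp [h])
    have hv1 : ‖v‖ < 1 := by
      rw [norm_pow] at h1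
      exact (pow_lt_one_iff_of_nonneg (norm_nonneg _) two_ne_zero).1 h1
    have key : ∀ a' j', a' ≤ 2 * a + 1 → j' < 2 ^ s → Step x n0 (n0 + 2 ^ (s + 1))
        (io p ((2 ^ s * v⁻¹ ^ a') • (zz ^ j' * G v (2 ^ s)) +
          (2 ^ s * (-v)⁻¹ ^ a') • (zz ^ j' * G (-v) (2 ^ s))))
        ((1 - β)⁻¹ * 2 ^ (s + 1) * ‖v ^ 2‖⁻¹ ^ (a + 1) * Φ (1 - ‖v ^ 2‖)) := by
      intro a' j' ha' hj'
      have s1 := ih v hv0 hv1 a' j' hj' n0 x fun i hi => by
        rw [hx i (by rw [pow_succ]; omega), root, if_pos hi, ← hv]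
      have s2 := ih (-v) (neg_ne_zero.2 hv0) (by rwa [norm_neg]) a' j' hj' (n0 + 2 ^ s) x
        fun i hi => by
          rw [add_assoc, hx _ (by rw [pow_succ]; omega), root, if_neg (by omega), ← hv,
            Nat.add_sub_cancel_left]
      have f1 := hF s v hv0 hv1 a' j'
      rw [norm_neg] at s2
      have hB : 2 ^ s * ‖v‖⁻¹ ^ (a' + 1) * Φ (1 - ‖v‖) ≤
          β * (2 ^ (s + 1) * ‖v ^ 2‖⁻¹ ^ (a + 1) * Φ (1 - ‖v ^ 2‖)) := by
        have h2 : 1 ≤ ‖v‖⁻¹ := (one_le_inv₀ (norm_pos_iff.2 hv0)).2 hv1.le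
        have h3 : ‖v‖⁻¹ ^ (a' + 1) ≤ ‖v ^ 2‖⁻¹ ^ (a + 1) := by
          rw [norm_pow, ← inv_pow, ← pow_mul]
          exact pow_le_pow_right₀ h2 (by omega)
        have h4 := hΦ2 ‖v‖ (norm_nonneg _) hv1
        rw [← norm_pow] at h4
        calc _ ≤ 2 ^ s * ‖v ^ 2‖⁻¹ ^ (a + 1) * (2 * β * Φ (1 - ‖v ^ 2‖)) := by
              gcongr
              exact hΦ0 _ (by linarith)
          _ = _ := by ring
      have hB0 : 0 ≤ 2 ^ (s + 1) * ‖v ^ 2‖⁻¹ ^ (a + 1) * Φ (1 - ‖v ^ 2‖) :=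
        mul_nonneg (by positivity) (hΦ0 _ (by linarith))
      rw [map_add, show n0 + 2 ^ (s + 1) = n0 + 2 ^ s + 2 ^ s by rw [pow_succ]; omega]
      have hKβ : (1 - β)⁻¹ * β = (1 - β)⁻¹ - 1 := by
        have : 1 - β ≠ 0 := by linarith
        field_simp
        ring
      have hB' := mul_le_mul_of_nonneg_left hB (zero_le_one.trans hK)
      rw [← mul_assoc _ β, hKβ] at hB'
      have hB'' := mul_le_of_le_one_left hB0 hβ1.le
      refine s1.concat s2 (by omega) (by omega) ?_ ?_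
      · nlinarith
      · nlinarith
    by_cases hj' : j < 2 ^ s
    · rw [← ident0 hv0 hv1]
      exact key _ _ (by omega) hj'
    · obtain ⟨j', rfl⟩ := Nat.exists_eq_add_of_le (not_lt.1 hj')
      rw [← ident1 hv0 hv1]
      exact key _ _ le_rfl (by rw [pow_succ] at hj; omega)

inductive PW : Y → ℝ → Prop
  | zero (A : ℝ) (h : 0 ≤ A) : PW 0 A
  | step (q : Y) (A : ℝ) (c : ℂ) (j : ℕ) (h : PW q A) : PW (q + c • zz ^ j) (A + ‖c‖)

theorem PW.nonneg {q : Y} {A : ℝ} (h : PW q A) : 0 ≤ A := by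
  induction h with
  | zero A h => exact h
  | step q A c j h ih => positivity

theorem PW.add {q q' : Y} {A A' : ℝ} (h : PW q A) (h' : PW q' A') : PW (q + q') (A + A') := by
  induction h' with
  | zero A' h' =>
    rw [add_zero]
    induction h with
    | zero A h => exact PW.zero _ (by positivity)
    | step q A c j h ih =>
      rw [add_right_comm]
      exact ih.step _ _ c j
  | step q' A' c j h' ih =>
    rw [← add_assoc, ← add_assoc]
    exact ih.step _ _ c j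

theorem PW.mono {q : Y} {A A' : ℝ} (h : PW q A) (hA : A ≤ A') : PW q A' := by
  simpa using h.add (PW.zero (A' - A) (by linarith))

theorem PW.mul {q : Y} {A : ℝ} (h : PW q A) (c : ℂ) (m : ℕ) :
    PW (c • (q * zz ^ m)) (‖c‖ * A) := by
  induction h with
  | zero A h =>
    rw [show c • ((0 : Y) * zz ^ m) = 0 by ext x; simp]
    exact PW.zero _ (by positivity)
  | step q A d j h ih =>
    have := ih.step _ _ (c * d) (j + m)
    rw [show c • ((q + d • zz ^ j) * zz ^ m) = c • (q * zz ^ m) + (c * d) • zz ^ (j + m) by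
      ext x; simp; ring, mul_add, ← norm_mul]
    exact this

theorem PW.geom {q : Y} {A : ℝ} (h : PW q A) (c u : ℂ) (m b : ℕ) :
    PW (c • (q * ∑ i ∈ range b, (u • zz ^ m) ^ i)) (‖c‖ * A * ∑ i ∈ range b, ‖u‖ ^ i) := by
  induction b with
  | zero =>
    rw [show c • (q * ∑ i ∈ range 0, (u • zz ^ m) ^ i) = 0 by ext x; simp]
    exact PW.zero _ (by simp)
  | succ b ih =>
    have := ih.add (h.mul (c * u ^ b) (m * b))
    rw [sum_range_succ, sum_range_succ]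
    convert this using 1
    · ext x
      simp only [ContinuousMap.add_apply, ContinuousMap.smul_apply, ContinuousMap.mul_apply,
        ContinuousMap.pow_apply, smul_eq_mul]
      ring
    · rw [norm_mul, norm_pow]
      ring

theorem level2 (hp : p ≠ ∞) {u : ℂ} (h0 : u ≠ 0) (h1 : ‖u‖ < 1) : ∃ K : ℝ, 0 ≤ K ∧
    ∀ q A, PW q A → ∃ d, ∀ s, d ≤ s → ∀ (n0 : ℕ) (x : ℕ → Lp ℂ p mu),
      (∀ i < 2 ^ s, x (n0 + i) = io p (G (root s u i) 1)) →
      Step x n0 (n0 + 2 ^ s) (io p (q * G u (2 ^ s))) (K * A) := by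
  obtain ⟨Φ, β, a1, a2, a3, a4, a5⟩ := exists_Phi p hp
  have hK : 0 ≤ (1 - β)⁻¹ * ‖u‖⁻¹ * Φ (1 - ‖u‖) :=
    mul_nonneg (mul_nonneg (inv_nonneg.2 (by linarith)) (by positivity)) (a3 _ (by linarith))
  refine ⟨_, hK, fun q A h => ?_⟩
  induction h with
  | zero A h =>
    refine ⟨0, fun s _ n0 x _ => ?_⟩
    rw [zero_mul, map_zero]
    exact (Step.zero _ _ _).mono (by positivity)
  | step q A c j h ih =>
    obtain ⟨d, hd⟩ := ih
    refine ⟨max d j, fun s hs n0 x hx => ?_⟩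
    have s1 := hd s ((le_max_left _ _).trans hs) n0 x hx
    have s2 := (level1 p a1 a2 a3 a4 a5 s u h0 h1 0 j
      (((le_max_right _ _).trans hs).trans_lt Nat.lt_two_pow_self) n0 x hx).smul (c / 2 ^ s)
    rw [← map_smul, smul_smul] at s2
    have s3 := s1.add s2
    rw [← map_add] at s3
    convert s3 using 1
    · congr 1
      rw [add_mul, smul_mul_assoc]
      congr 2
      field_simp
    · rw [norm_div, norm_pow, Complex.norm_two, zero_add, pow_one]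
      generalize ‖u‖⁻¹ = r
      generalize (1 - β)⁻¹ = t
      field_simp

end Pool.Agent.H.MP_459ac8_an
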