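import Pool.Agent.H.MP_459ac8_an.A

set_option autoImplicit false
open Filter Topology Finset Metric MeasureTheory
open scoped ENNReal ComplexConjugate

namespace Pool.Agent.H.MP_459ac8_an

variable (p : ℝ≥0∞) [Fact (1 ≤ p)]

theorem integ_Lp (g : Lp ℂ p mu) : Integrable g mu := (Lp.memLp g).integrable Fact.out

noncomputable def coef (m : ℤ) : Lp ℂ p mu →L[ℂ] ℂ :=
  LinearMap.mkContinuous
    { toFun := fun g => fourierCoeff g m
      map_add' := fun f g => by
        rw [fourierCoeff_congr_ae (Lp.coeFn_add f g),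
          fourierCoeff.add (integ_Lp p f) (integ_Lp p g)]
        rfl
      map_smul' := fun c f => by
        rw [fourierCoeff_congr_ae (Lp.coeFn_smul c f), fourierCoeff.const_smul]
        rfl } 1 fun g => by
    simp only [LinearMap.coe_mk, AddHom.coe_mk, one_mul, fourierCoeff]
    refine (norm_integral_le_integral_norm _).trans ?_
    simp only [norm_smul, fourier_apply, Circle.norm_coe, one_mul]
    rw [integral_norm_eq_lintegral_enorm (Lp.aestronglyMeasurable g), Lp.norm_def,
      ← eLpNorm_one_eq_lintegral_enorm]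
    exact ENNReal.toReal_mono (Lp.eLpNorm_ne_top g)
      (eLpNorm_le_eLpNorm_of_exponent_le Fact.out (Lp.aestronglyMeasurable g))

theorem coef_apply (m : ℤ) (g : Lp ℂ p mu) : coef p m g = fourierCoeff g m := rfl

theorem coef_fourier (m n : ℤ) : coef p m (fourierLp p n) = if m = n then 1 else 0 := by
  rw [coef_apply, fourierCoeff_congr_ae (coeFn_fourierLp p n), fourierCoeff_fourier,
    Pi.single_apply]

noncomputable def fej (N : ℕ) : Lp ℂ p mu →L[ℂ] Lp ℂ p mu :=
  ∑ a ∈ range N, ∑ b ∈ range N, (coef p ((a : ℤ) - b)).smulRight (fourierLp p ((a : ℤ) - b))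

noncomputable def cnt (N : ℕ) (m : ℤ) : ℂ :=
  ∑ a ∈ range N, ∑ b ∈ range N, if (a : ℤ) - b = m then 1 else 0

theorem fej_fourier (N : ℕ) (m : ℤ) : fej p N (fourierLp p m) = cnt N m • fourierLp p m := by
  simp only [fej, cnt, _root_.sum_apply, ContinuousLinearMap.smulRight_apply,
    coef_fourier, sum_smul]
  refine sum_congr rfl fun a _ => sum_congr rfl fun b _ => ?_
  split_ifs with h
  · rw [h]
  · simp

theorem cnt_aux (N k : ℕ) :
    (∑ b ∈ range N, ∑ a ∈ range N, if a = b + k then (1 : ℂ) else 0) = ((N - k : ℕ) : ℂ) := by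
  simp only [sum_ite_eq', mem_range, sum_boole]
  rw [show filter (fun b => b + k < N) (range N) = range (N - k) by
    ext b; simp only [mem_filter, mem_range]; omega, card_range]

theorem cnt_eq (N : ℕ) (m : ℤ) : cnt N m = ((N - m.natAbs : ℕ) : ℂ) := by
  rw [← cnt_aux, cnt]
  rcases le_total 0 m with h | h
  · rw [sum_comm]
    exact sum_congr rfl fun a _ => sum_congr rfl fun b _ => if_congr (by omega) rfl rfl
  · exact sum_congr rfl fun a _ => sum_congr rfl fun b _ => if_congr (by omega) rfl rfl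

theorem cnt_lim (m : ℤ) : Tendsto (fun N : ℕ => (N : ℂ)⁻¹ * cnt N m) atTop (𝓝 1) := by
  have h := ((tendsto_inv_atTop_nhds_zero_nat (𝕜 := ℂ)).mul_const (m.natAbs : ℂ)).const_sub 1
  rw [zero_mul, sub_zero] at h
  refine h.congr' ?_
  filter_upwards [eventually_ge_atTop (m.natAbs + 1)] with N hN
  have : (N : ℂ) ≠ 0 := Nat.cast_ne_zero.2 (by omega)
  rw [cnt_eq, Nat.cast_sub (by omega)]
  field_simp

noncomputable def tr (t : Cir) : Lp ℂ p mu →ₗᵢ[ℂ] Lp ℂ p mu :=
  Lp.compMeasurePreservingₗᵢ ℂ (fun x => x + t) (measurePreserving_add_right mu t)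

theorem tr_fourier (t : Cir) (m : ℤ) : tr p t (fourierLp p m) = fourier m t • fourierLp p m := by
  apply Lp.ext
  have h1 := Lp.coeFn_compMeasurePreserving (fourierLp p m) (measurePreserving_add_right mu t)
  have h2 := (measurePreserving_add_right mu t).quasiMeasurePreserving.ae_eq_comp
    (coeFn_fourierLp p m)
  filter_upwards [h1, h2, Lp.coeFn_smul (fourier m t) (fourierLp p m), coeFn_fourierLp p m]
    with x a1 a2 a3 a4
  rw [a3, Pi.smul_apply, a4]
  refine a1.trans (a2.trans ?_)
  simp [AddCircle.toCircle_add, mul_comm]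

noncomputable def ker (N : ℕ) : Y := ∑ a ∈ range N, ∑ b ∈ range N, fourier ((b : ℤ) - a)

theorem ker_eq (N : ℕ) (t : Cir) : ker N t = (‖ker N t‖ : ℝ) := by
  have h : ker N t = (Complex.normSq (∑ b ∈ range N, fourier (b : ℤ) t) : ℝ) := by
    rw [Complex.normSq_eq_conj_mul_self, map_sum, sum_mul_sum, ker]
    simp only [ContinuousMap.coe_sum, Finset.sum_apply]
    refine sum_congr rfl fun a _ => sum_congr rfl fun b _ => ?_
    rw [sub_eq_neg_add, fourier_add, fourier_neg]
  rw [h, Complex.norm_real, Real.norm_of_nonneg (Complex.normSq_nonneg _)]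

theorem int_ker (N : ℕ) (m : ℤ) : ∫ t, ker N t * fourier m t ∂mu = cnt N m := by
  have h : ker N * fourier m = ∑ a ∈ range N, ∑ b ∈ range N, fourier ((b : ℤ) - a + m) := by
    ext t
    simp only [ker, ContinuousMap.mul_apply, ContinuousMap.coe_sum, Finset.sum_apply, sum_mul,
      fourier_add]
  have h2 := intC_apply (ker N * fourier m)
  simp only [ContinuousMap.mul_apply] at h2
  rw [← h2, h]
  simp only [map_sum, intC_fourier, cnt]
  exact sum_congr rfl fun a _ => sum_congr rfl fun b _ => if_congr (by omega) rfl rfl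

theorem int_norm_ker (N : ℕ) : ∫ t, ‖ker N t‖ ∂mu = N := by
  have h := int_ker N 0
  simp only [fourier_zero, mul_one, cnt_eq, Int.natAbs_zero, Nat.sub_zero] at h
  rw [integral_congr_ae (Eventually.of_forall (ker_eq N)), integral_complex_ofReal] at h
  exact_mod_cast h

theorem fej_span (N : ℕ) (g : Lp ℂ p mu) (hg : g ∈ Submodule.span ℂ (Set.range (fourierLp p))) :
    Continuous (fun t => tr p t g) ∧ ∫ t, ker N t • tr p t g ∂mu = fej p N g := by
  have hint : ∀ g : Lp ℂ p mu, Continuous (fun t => tr p t g) →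
      Integrable (fun t => ker N t • tr p t g) mu := fun g h =>
    ((ker N).continuous.smul h).integrable_of_hasCompactSupport (HasCompactSupport.of_compactSpace _)
  induction hg using Submodule.span_induction with
  | mem g hg =>
    obtain ⟨m, rfl⟩ := hg
    simp only [tr_fourier, smul_smul]
    exact ⟨(fourier m).continuous.smul continuous_const, by
      rw [integral_smul_const, int_ker, fej_fourier]⟩
  | zero => simp [continuous_const]
  | add f g _ _ hf hg =>
    simp only [map_add, smul_add]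
    exact ⟨hf.1.add hg.1, by rw [integral_add (hint f hf.1) (hint g hg.1), hf.2, hg.2]⟩
  | smul c f _ hf =>
    simp only [map_smul, smul_comm _ c]
    exact ⟨hf.1.const_smul c, by rw [integral_smul, hf.2]⟩

theorem fej_bound (hp : p ≠ ∞) (N : ℕ) (g : Lp ℂ p mu) : ‖fej p N g‖ ≤ N * ‖g‖ := by
  have hd : Dense (Submodule.span ℂ (Set.range (fourierLp (T := 1) p)) : Set (Lp ℂ p mu)) := by
    rw [Submodule.dense_iff_topologicalClosure_eq_top]
    exact span_fourierLp_closure_eq_top hp
  refine closure_minimal (t := {g | ‖fej p N g‖ ≤ N * ‖g‖}) (fun g hg => ?_)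
    (isClosed_le (by fun_prop) (by fun_prop)) (hd g)
  show ‖fej p N g‖ ≤ N * ‖g‖
  rw [← (fej_span p N g hg).2]
  refine (norm_integral_le_integral_norm _).trans (le_of_eq ?_)
  simp only [norm_smul, LinearIsometry.norm_map]
  rw [integral_mul_const, int_norm_ker]

theorem fej_lim (hp : p ≠ ∞) (g : Lp ℂ p mu) :
    Tendsto (fun N : ℕ => (N : ℂ)⁻¹ • fej p N g) atTop (𝓝 g) := by
  have hd : Dense (Submodule.span ℂ (Set.range (fourierLp (T := 1) p)) : Set (Lp ℂ p mu)) := by
    rw [Submodule.dense_iff_topologicalClosure_eq_top]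
    exact span_fourierLp_closure_eq_top hp
  have h1 : ∀ q ∈ Submodule.span ℂ (Set.range (fourierLp (T := 1) p)),
      Tendsto (fun N : ℕ => (N : ℂ)⁻¹ • fej p N q) atTop (𝓝 q) := by
    intro q hq
    induction hq using Submodule.span_induction with
    | mem g hg =>
      obtain ⟨m, rfl⟩ := hg
      simp only [fej_fourier, smul_smul]
      simpa using (cnt_lim m).smul_const (fourierLp p m)
    | zero => simp
    | add f g _ _ hf hg =>
      simp only [map_add, smul_add]
      exact hf.add hg
    | smul c f _ hf =>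
      simp only [map_smul, smul_comm _ c]
      exact hf.const_smul c
  rw [Metric.tendsto_nhds]
  intro ε hε
  obtain ⟨q, hq1, hq2⟩ := hd.exists_dist_lt g (show 0 < ε / 3 by linarith)
  filter_upwards [Metric.tendsto_nhds.1 (h1 q hq1) (ε / 3) (by linarith)] with N hN
  rw [dist_eq_norm] at hN hq2 ⊢
  have h2 : ‖(N : ℂ)⁻¹ • fej p N (g - q)‖ ≤ ‖g - q‖ := by
    rw [norm_smul, norm_inv, Complex.norm_natCast]
    exact inv_mul_le_of_le_mul₀ (by positivity) (norm_nonneg _) (fej_bound p hp N _)
  rw [show (N : ℂ)⁻¹ • fej p N g - g = (N : ℂ)⁻¹ • fej p N (g - q) +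
    ((N : ℂ)⁻¹ • fej p N q - q) - (g - q) by rw [map_sub, smul_sub]; abel]
  have := norm_sub_le ((N : ℂ)⁻¹ • fej p N (g - q) + ((N : ℂ)⁻¹ • fej p N q - q)) (g - q)
  have := norm_add_le ((N : ℂ)⁻¹ • fej p N (g - q)) ((N : ℂ)⁻¹ • fej p N q - q)
  linarith

theorem hardy_dense (hp : p ≠ ∞) (g : Lp ℂ p mu) (hg : ∀ n < 0, fourierCoeff g n = 0) :
    g ∈ (Submodule.span ℂ (Set.range fun j : ℕ => io p (zz ^ j))).topologicalClosure := by
  refine mem_closure_of_tendsto (fej_lim p hp g) (Eventually.of_forall fun N => ?_)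
  refine Submodule.smul_mem _ _ ?_
  simp only [fej, _root_.sum_apply, ContinuousLinearMap.smulRight_apply]
  refine Submodule.sum_mem _ fun a _ => Submodule.sum_mem _ fun b _ => ?_
  rcases lt_or_ge ((a : ℤ) - b) 0 with h | h
  · rw [coef_apply, hg _ h, zero_smul]
    exact Submodule.zero_mem _
  · refine Submodule.smul_mem _ _ (Submodule.subset_span ⟨((a : ℤ) - b).toNat, ?_⟩)
    simp only [zz_pow, Int.toNat_of_nonneg h]

end Pool.Agent.H.MP_459ac8_an
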