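import Pool.Agent.H.MP_459ac8_an.B
import Pool.Agent.H.MP_459ac8_an.C

set_option autoImplicit false
open Filter Topology Finset Metric MeasureTheory Pool.Agent.H.MP_321233_an
open scoped ENNReal ComplexConjugate

namespace Pool.Agent.H.MP_459ac8_an

noncomputable def cn (n : ℕ) (g : ℕ → ℂ) (r : ℝ) : ℕ := ((range n).filter fun i => ‖g i‖ < r).card

theorem cn_le (n : ℕ) (g : ℕ → ℂ) (r : ℝ) : cn n g r ≤ n :=
  (card_filter_le _ _).trans (card_range n).le

theorem cn_congr {n n' : ℕ} {g g' : ℕ → ℂ} {r : ℝ} (hn : n ≤ n') (h : ∀ i < n, g' i = g i)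
    (h' : ∀ i, n ≤ i → i < n' → r ≤ ‖g' i‖) : cn n' g' r = cn n g r := by
  unfold cn
  congr 1
  ext i
  simp only [mem_filter, mem_range]
  constructor
  · rintro ⟨a, b⟩
    have : i < n := by
      by_contra hc
      exact (h' i (not_lt.1 hc) a).not_gt b
    exact ⟨this, h i this ▸ b⟩
  · rintro ⟨a, b⟩
    exact ⟨by omega, (h i a).symm ▸ b⟩

def Inv2 (n0 : ℕ) (r0 η : ℝ) (n : ℕ) (g : ℕ → ℂ) : Prop :=
  n0 ≤ n ∧ Set.InjOn g (Set.Iio n) ∧ (∀ i < n, ‖g i‖ < 1) ∧ (∀ i, n0 ≤ i → i < n → r0 ≤ ‖g i‖) ∧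
    ∀ r, r0 ≤ r → r < 1 → (1 - r) * cn n g r ≤ 3 * η

theorem root_norm {η : ℝ} (h0 : 0 < η) (h1 : η ≤ 1 / 2) (s i : ℕ) :
    ‖root s ((1 - η : ℝ) : ℂ) i‖ < 1 ∧ (1 - ‖root s ((1 - η : ℝ) : ℂ) i‖) * 2 ^ s ≤ 2 * η := by
  have h := congrArg norm (root_pow s ((1 - η : ℝ) : ℂ) i)
  rw [norm_pow, Complex.norm_real, Real.norm_of_nonneg (by linarith)] at h
  have hR0 := norm_nonneg (root s ((1 - η : ℝ) : ℂ) i)
  generalize ‖root s ((1 - η : ℝ) : ℂ) i‖ = R at h hR0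
  have hR : 0 < R := hR0.lt_of_ne fun e => by
    rw [← e, zero_pow (by positivity)] at h
    linarith
  refine ⟨(pow_lt_one_iff_of_nonneg hR0 (n := 2 ^ s) (by positivity)).1 (by linarith), ?_⟩
  have h2 := congrArg Real.log h
  rw [Real.log_pow] at h2
  push_cast at h2
  have h3 := Real.log_le_sub_one_of_pos hR
  have h4 := Real.one_sub_inv_le_log_of_pos (show 0 < 1 - η by linarith)
  have h5 : (1 - η)⁻¹ ≤ 1 + 2 * η := by
    rw [inv_le_iff_one_le_mul₀ (by linarith)]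
    nlinarith
  have h6 := mul_le_mul_of_nonneg_left h3 (show (0 : ℝ) ≤ 2 ^ s by positivity)
  linarith

theorem ext_level {n0 n : ℕ} {r0 η : ℝ} {g : ℕ → ℂ} (h0 : 0 < η) (h1 : η ≤ 1 / 2) (hr : r0 < 1)
    (h : Inv2 n0 r0 η n g) (d : ℕ) : ∃ s, d ≤ s ∧ ∃ g' : ℕ → ℂ, (∀ i < n, g' i = g i) ∧
      Inv2 n0 r0 η (n + 2 ^ s) g' ∧ ∀ i < 2 ^ s, g' (n + i) = conj (root s ((1 - η : ℝ) : ℂ) i) := by
  obtain ⟨a1, a2, a3, a4, a5⟩ := h
  have l1 : Tendsto (fun s : ℕ => ((2 : ℝ) ^ s)⁻¹) atTop (𝓝 0) :=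
    (tendsto_pow_atTop_atTop_of_one_lt one_lt_two).inv_tendsto_atTop
  have e1 : ∀ᶠ s : ℕ in atTop, ∀ i ∈ range n, ((2 : ℝ) ^ s)⁻¹ < 1 - ‖g i‖ :=
    (eventually_all_finset _).2 fun i hi => l1.eventually_lt_const
      (by linarith [a3 i (mem_range.1 hi)])
  obtain ⟨s, b1, b2, b3, b4⟩ := (e1.and ((l1.eventually_lt_const (sub_pos.2 hr)).and
    ((eventually_ge_atTop d).and (eventually_ge_atTop (2 * n))))).exists
  have b5 : 2 * (n : ℝ) ≤ 2 ^ s := by exact_mod_cast b4.trans Nat.lt_two_pow_self.le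
  let g' : ℕ → ℂ := fun i => if i < n then g i else conj (root s ((1 - η : ℝ) : ℂ) (i - n))
  have c1 : ∀ i < n, g' i = g i := fun i hi => if_pos hi
  have c2 : ∀ i, n ≤ i → g' i = conj (root s ((1 - η : ℝ) : ℂ) (i - n)) := fun i hi =>
    if_neg (not_lt.2 hi)
  have hs : (0 : ℝ) < 2 ^ s := by positivity
  have c3 : ∀ i, n ≤ i → ‖g' i‖ < 1 ∧ (1 - ‖g' i‖) * 2 ^ s ≤ 2 * η := fun i hi => by
    rw [c2 i hi, Complex.norm_conj]
    exact root_norm h0 h1 s _
  have c4 : ∀ i, n ≤ i → 1 - ‖g' i‖ ≤ ((2 : ℝ) ^ s)⁻¹ := fun i hi => by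
    rw [← one_div, le_div_iff₀ hs]
    linarith [(c3 i hi).2]
  refine ⟨s, b3, g', c1, ⟨a1.trans (Nat.le_add_right _ _), ?_, fun i _ => ?_, fun i hi _ => ?_,
    fun r hr0 hr1 => ?_⟩, fun i _ => by rw [c2 _ (Nat.le_add_right _ _), Nat.add_sub_cancel_left]⟩
  · intro i hi l hl hil
    rcases lt_or_ge i n with h2 | h2 <;> rcases lt_or_ge l n with h3 | h3
    · rw [c1 i h2, c1 l h3] at hil
      exact a2 h2 h3 hil
    · have := b1 i (mem_range.2 h2)
      have := c4 l h3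
      rw [← hil, c1 i h2] at this
      linarith
    · have := b1 l (mem_range.2 h3)
      have := c4 i h2
      rw [hil, c1 l h3] at this
      linarith
    · rw [c2 i h2, c2 l h3] at hil
      have hi' : i < n + 2 ^ s := hi
      have hl' : l < n + 2 ^ s := hl
      have := root_inj s _ (by exact_mod_cast (show (1 - η : ℝ) ≠ 0 by linarith)) _ (by omega) _
        (by omega) ((starRingEnd ℂ).injective hil)
      omega
  · rcases lt_or_ge i n with h2 | h2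
    · rw [c1 i h2]; exact a3 i h2
    · exact (c3 i h2).1
  · rcases lt_or_ge i n with h2 | h2
    · rw [c1 i h2]; exact a4 i hi h2
    · linarith [c4 i h2]
  · by_cases hc : ∀ i, n ≤ i → i < n + 2 ^ s → r ≤ ‖g' i‖
    · rw [cn_congr (Nat.le_add_right _ _) c1 hc]
      exact a5 r hr0 hr1
    · push Not at hc
      obtain ⟨i, d1, -, d2⟩ := hc
      have d3 := (c3 i d1).2
      have d4 : (cn (n + 2 ^ s) g' r : ℝ) ≤ n + 2 ^ s := by exact_mod_cast cn_le _ _ _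
      have d5 : (1 - r) * 2 ^ s ≤ 2 * η := by nlinarith
      have d6 := mul_le_mul_of_nonneg_left d4 (sub_pos.2 hr1).le
      have d7 := mul_le_mul_of_nonneg_left b5 (sub_pos.2 hr1).le
      nlinarith

theorem blaschke {ρ : ℝ} (h0 : 0 ≤ ρ) (h1 : ρ < 1) (q : Y) (m : ℕ) :
    ‖q - ((1 - ρ ^ 2 : ℝ) : ℂ) • (q * G ρ m)‖ ≤ ρ * ‖q‖ := by
  have hρ : ‖(ρ : ℂ)‖ < 1 := by rwa [Complex.norm_real, Real.norm_of_nonneg h0]
  refine (ContinuousMap.norm_le _ (by positivity)).2 fun x => ?_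
  have e := one_sub_ne hρ m x
  have hw : ‖zz x ^ m‖ = 1 := by rw [norm_pow, norm_zz, one_pow]
  simp only [ContinuousMap.sub_apply, ContinuousMap.smul_apply, ContinuousMap.mul_apply,
    smul_eq_mul, G_apply hρ]
  generalize zz x ^ m = w at e hw
  have h2 : ‖(ρ : ℂ) - w‖ = ‖1 - ρ * w‖ := by
    have h3 : (1 : ℂ) - ρ * w = -w * conj ((ρ : ℂ) - w) := by
      have := Complex.mul_conj' w
      rw [hw] at this
      simp only [map_sub, Complex.conj_ofReal]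
      push_cast at this
      linear_combination -this
    rw [h3, norm_mul, norm_neg, hw, one_mul, Complex.norm_conj]
  rw [show q x - ((1 - ρ ^ 2 : ℝ) : ℂ) * (q x * (1 - ρ * w)⁻¹) =
    ρ * q x * ((ρ - w) / (1 - ρ * w)) by push_cast; field_simp; ring, norm_mul, norm_div, h2,
    div_self (norm_ne_zero_iff.2 e), mul_one, norm_mul, Complex.norm_real, Real.norm_of_nonneg h0]
  exact mul_le_mul_of_nonneg_left (q.norm_coe_le_norm x) h0

variable (p : ℝ≥0∞) [Fact (1 ≤ p)]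

noncomputable def kk (l : ℂ) : Lp ℂ p mu := io p (G (conj l) 1)

theorem iter (hp : p ≠ ∞) {η r0 : ℝ} (h0 : 0 < η) (h1 : η ≤ 1 / 2) (hr : r0 < 1) (n0 L : ℕ) :
    ∃ P, 0 ≤ P ∧ ∀ q A, PW q A → ∀ ε > 0, Reach (kk p) (Inv2 n0 r0 η) (P * A)
      fun w => ‖io p q - w‖ ≤ (1 - η) ^ L * ‖q‖ + ε := by
  set ρ : ℝ := 1 - η with hρ
  have hρ0 : 0 < ρ := by linarith
  have hρ1 : ρ < 1 := by linarith
  have hρn : ‖(ρ : ℂ)‖ = ρ := by rw [Complex.norm_real, Real.norm_of_nonneg hρ0.le]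
  have hγ0 : 0 ≤ 1 - ρ ^ 2 := by nlinarith
  have hγn : ‖((1 - ρ ^ 2 : ℝ) : ℂ)‖ = 1 - ρ ^ 2 := by
    rw [Complex.norm_real, Real.norm_of_nonneg hγ0]
  obtain ⟨K, hK, hlev⟩ := level2 p hp (u := (ρ : ℂ)) (by exact_mod_cast hρ0.ne') (by rwa [hρn])
  induction L with
  | zero =>
    refine ⟨0, le_rfl, fun q A _ ε hε => Reach.zero (by simp) ?_⟩
    have := io_norm_le p q
    simp only [sub_zero, pow_zero, one_mul]
    linarith
  | succ L ih =>
    obtain ⟨P, hP, ih⟩ := ih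
    refine ⟨K + 3 * P, by positivity, fun q A hq ε hε => ?_⟩
    have hA := hq.nonneg
    have s1 : Reach (kk p) (Inv2 n0 r0 η) (K * A)
        fun w => ∃ m, w = io p (((1 - ρ ^ 2 : ℝ) : ℂ) • (q * G ρ m)) := by
      intro n g hg
      obtain ⟨d, hd⟩ := hlev q A hq
      obtain ⟨s, b1, g', b2, b3, b4⟩ := ext_level h0 h1 hr hg d
      refine ⟨_, g', Nat.le_add_right _ _, b2, b3, _, ?_, 2 ^ s, rfl⟩
      have := (hd s b1 n (fun i => kk p (g' i)) fun i hi => by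
        simp only [kk, b4 i hi, Complex.conj_conj]; rfl).smul ((1 - ρ ^ 2 : ℝ) : ℂ)
      rw [map_smul]
      refine this.mono ?_
      rw [hγn]
      exact mul_le_of_le_one_left (by positivity) (by nlinarith)
    refine s1.concat (by nlinarith [mul_nonneg hP hA]) ?_
    rintro _ ⟨m, rfl⟩ hw
    have l1 := ((G_hasSum (a := (ρ : ℂ)) (by rwa [hρn]) m).tendsto_sum_nat.const_mul q).const_smul
      ((1 - ρ ^ 2 : ℝ) : ℂ)
    obtain ⟨b, hb⟩ := (Metric.tendsto_nhds.1 l1 (ε / 3) (by linarith)).exists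
    rw [dist_eq_norm] at hb
    set t := ((1 - ρ ^ 2 : ℝ) : ℂ) • (q * ∑ i ∈ range b, ((ρ : ℂ) • zz ^ m) ^ i) with ht
    set t' := ((1 - ρ ^ 2 : ℝ) : ℂ) • (q * G ρ m) with ht'
    have hq' : PW (q - t) (3 * A) := by
      have := hq.add (hq.geom (-((1 - ρ ^ 2 : ℝ) : ℂ)) ρ m b)
      rw [norm_neg, hγn, hρn] at this
      rw [show q - t = q + -((1 - ρ ^ 2 : ℝ) : ℂ) • (q * ∑ i ∈ range b, ((ρ : ℂ) • zz ^ m) ^ i) by
        ext x; simp [ht, sub_eq_add_neg]; ring]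
      refine this.mono ?_
      have e := mul_neg_geom_sum ρ b
      have e2 : (1 - ρ ^ 2) * A * ∑ i ∈ range b, ρ ^ i = (1 + ρ) * A * (1 - ρ ^ b) := by
        rw [← e]; ring
      have e3 : 0 ≤ ρ ^ b := by positivity
      rw [e2]
      nlinarith [mul_nonneg hA e3, mul_nonneg (mul_nonneg hA e3) hρ0.le]
    refine (ih _ _ hq' (ε / 3) (by linarith)).mono (by nlinarith) fun w hw' => ?_
    have n1 : ‖q - t‖ ≤ ρ * ‖q‖ + ε / 3 := by
      have := norm_sub_le (q - t') (t - t')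
      rw [sub_sub_sub_cancel_right] at this
      linarith [blaschke hρ0.le hρ1 q m]
    have n2 := io_norm_le p (t - t')
    have n3 : ρ ^ L ≤ 1 := pow_le_one₀ hρ0.le hρ1.le
    have n4 := mul_le_mul_of_nonneg_left n1 (pow_nonneg hρ0.le L)
    rw [show io p q - (io p t' + w) = io p (t - t') + (io p (q - t) - w) by
      rw [map_sub, map_sub]; abel, pow_succ]
    refine (norm_add_le _ _).trans ?_
    nlinarith

theorem span_PW (v : Lp ℂ p mu)
    (hv : v ∈ Submodule.span ℂ (Set.range fun j : ℕ => io p (zz ^ j))) :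
    ∃ q A, PW q A ∧ io p q = v := by
  induction hv using Submodule.span_induction with
  | mem v hv =>
    obtain ⟨j, rfl⟩ := hv
    exact ⟨_, _, (PW.zero 0 le_rfl).step _ _ 1 j, by simp⟩
  | zero => exact ⟨0, 0, PW.zero 0 le_rfl, map_zero _⟩
  | add f g _ _ hf hg =>
    obtain ⟨q, A, a1, rfl⟩ := hf
    obtain ⟨q', A', a2, rfl⟩ := hg
    exact ⟨_, _, a1.add a2, map_add _ _ _⟩
  | smul c f _ hf =>
    obtain ⟨q, A, a1, rfl⟩ := hf
    exact ⟨_, _, a1.mul c 0, by simp⟩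

theorem main (hp : p ≠ ∞) : ∃ Λ : ℕ → ℂ, Function.Injective Λ ∧ (∀ n, ‖Λ n‖ < 1) ∧
    (∀ r < 1, {n | ‖Λ n‖ < r}.Finite) ∧
    Tendsto (fun r : ℝ => (1 - r) * ({n | ‖Λ n‖ < r}.ncard : ℝ)) (𝓝[<] 1) (𝓝 0) ∧
    ∀ f : Lp ℂ p mu, (∀ n < 0, fourierCoeff f n = 0) →
      ∃ c : ℕ → ℂ, Tendsto (fun N => ∑ i ∈ range N, c i • kk p (Λ i)) atTop (𝓝 f) := by
  set D := Submodule.span ℂ (Set.range fun j : ℕ => io p (zz ^ j)) with hD
  obtain ⟨Λ, N, a1, a2, a3, a4⟩ := main_rep (kk p) D.topologicalClosure D D.zero_mem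
    ((Set.countable_range _).isSeparable.span (R := ℂ)) subset_rfl
    (fun n g => Set.InjOn g (Set.Iio n) ∧ ∀ i < n, ‖g i‖ < 1)
    (fun j n n' g => ∃ r0, 1 - 1 / ((j : ℝ) + 2) ≤ r0 ∧ r0 < 1 ∧ Inv2 n r0 (1 / ((j : ℝ) + 2)) n' g)
    (by simp)
    (fun j n n' g g' h ⟨r0, b1, b2, c1, c2, c3, c4, c5⟩ => ⟨r0, b1, b2, c1,
      fun i hi l hl hil => c2 hi hl (by rwa [h i hi, h l hl] at hil),
      fun i hi => by rw [h i hi]; exact c3 i hi, fun i d1 d2 => by rw [h i d2]; exact c4 i d1 d2,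
      fun r d1 d2 => by rw [cn_congr le_rfl h (fun i e1 e2 => by omega)]; exact c5 r d1 d2⟩)
    (by
      intro v hv j n g hg
      obtain ⟨q, A, hq, rfl⟩ := span_PW p v hv
      set η : ℝ := 1 / ((j : ℝ) + 2) with hη
      have hj : (0 : ℝ) ≤ j := j.cast_nonneg
      have hn : (0 : ℝ) ≤ n := n.cast_nonneg
      have h0 : 0 < η := by positivity
      have h1 : η ≤ 1 / 2 := one_div_le_one_div_of_le two_pos (by linarith)
      have h2 : 0 < η / (n + 1) := by positivity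
      have h3 : η / (n + 1) ≤ η := div_le_self h0.le (by linarith)
      have hI : Inv2 n (1 - η / (n + 1)) η n g := by
        refine ⟨le_rfl, hg.1, hg.2, fun i e1 e2 => by omega, fun r e1 e2 => ?_⟩
        have e3 : (cn n g r : ℝ) ≤ n := by exact_mod_cast cn_le _ _ _
        have e4 : 1 - r ≤ η / (n + 1) := by linarith
        rw [le_div_iff₀ (by positivity)] at e4
        nlinarith
      obtain ⟨s, -, g1, c1, c2, -⟩ := ext_level h0 h1 (by linarith) hI 0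
      have l1 := (tendsto_pow_atTop_nhds_zero_of_lt_one (r := 1 - η) (by linarith)
        (by linarith)).mul_const ‖q‖
      rw [zero_mul] at l1
      obtain ⟨L, hL⟩ := (l1.eventually_lt_const (show (0 : ℝ) < 1 / 8 by norm_num)).exists
      obtain ⟨P, -, hP⟩ := iter p hp (r0 := 1 - η / (n + 1)) h0 h1 (by linarith) n L
      have hR := ((hP q A hq (1 / 8) (by norm_num)).mono le_rfl
        (W1 := fun w => ‖io p q - w‖ ≤ 1 / 4) fun w hw => by linarith).avg (by norm_num)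
      obtain ⟨n', g', d1, d2, d3, w, d4, d5⟩ := hR _ g1 c2
      have hs : n < n + 2 ^ s := Nat.lt_add_of_pos_right (by positivity)
      refine ⟨n', g', hs.trans_le d1, fun i hi => by rw [d2 i (by omega), c1 i hi],
        ⟨d3.2.1, d3.2.2.1⟩, ⟨_, by linarith, by linarith, d3⟩, w, ?_, d5⟩
      have := (Step.zero _ n (n + 2 ^ s)).concat d4 hs.le d1 (P := ‖io p q‖ + 2)
        (by positivity) (by rw [norm_zero]; linarith)
      rwa [zero_add] at this)
  choose r0 b1 b2 b3 using a3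
  obtain ⟨b, hb1, -, -⟩ := exists_blk N a2 a1
  have hlt : ∀ i, ‖Λ i‖ < 1 := fun i => (b3 (b i)).2.2.1 i (hb1 i).2
  have lη : Tendsto (fun j : ℕ => 1 / ((j : ℝ) + 2)) atTop (𝓝 0) :=
    tendsto_const_nhds.div_atTop (tendsto_natCast_atTop_atTop.atTop_add tendsto_const_nhds)
  have hbig : ∀ r < 1, ∀ᶠ j in atTop, r < r0 j := fun r hr => by
    filter_upwards [lη.eventually_lt_const (sub_pos.2 hr)] with j hj
    linarith [b1 j]
  have hset : ∀ (r : ℝ) (j : ℕ), (∀ l, j ≤ l → r < r0 l) →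
      {n | ‖Λ n‖ < r} = ((range (N j)).filter fun i => ‖Λ i‖ < r : Finset ℕ) := by
    intro r j hj
    ext i
    simp only [Set.mem_ofPred_eq, coe_filter, mem_range]
    refine ⟨fun hi => ⟨?_, hi⟩, fun hi => hi.2⟩
    by_contra hc
    have e1 : j ≤ b i := Nat.lt_succ_iff.1 (a2.lt_iff_lt.1 ((not_lt.1 hc).trans_lt (hb1 i).2))
    have e2 := (b3 (b i)).2.2.2.1 i (hb1 i).1 (hb1 i).2
    linarith [hj _ e1]
  refine ⟨Λ, fun i l hil => ?_, hlt, fun r hr => ?_, ?_, fun f hf => a4 (fun i => ?_) f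
    (hardy_dense p hp f hf)⟩
  · have h1 : max i l < N (max i l + 1) := (Nat.lt_succ_self _).trans_le (a2.id_le _)
    exact (b3 (max i l)).2.1 ((le_max_left _ _).trans_lt h1) ((le_max_right _ _).trans_lt h1) hil
  · obtain ⟨j, hj⟩ := eventually_atTop.1 (hbig r hr)
    rw [hset r j hj]
    exact Finset.finite_toSet _
  · rw [Metric.tendsto_nhds]
    intro ε hε
    obtain ⟨j0, hj0⟩ := eventually_atTop.1 (lη.eventually_lt_const (show 0 < ε / 3 by linarith))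
    filter_upwards [Ioo_mem_nhdsLT (b2 j0)] with r hr
    obtain ⟨J, hJ⟩ := eventually_atTop.1 (hbig r hr.2)
    have hfin : {j | r0 j ≤ r}.Finite := (Set.finite_lt_nat J).subset fun j hj => by
      by_contra hc
      exact (hJ j (not_lt.1 hc)).not_ge hj
    obtain ⟨j, e1, e2⟩ := Set.exists_max_image _ id hfin ⟨j0, hr.1.le⟩
    rw [hset r (j + 1) fun l hl => by
      by_contra hc
      have := e2 l (not_lt.1 hc)
      simp only [id] at this
      omega, Set.ncard_coe_finset, Real.dist_eq, sub_zero,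
      abs_of_nonneg (mul_nonneg (sub_pos.2 hr.2).le (Nat.cast_nonneg _))]
    have e3 := (b3 j).2.2.2.2 r e1 hr.2
    have e4 := hj0 j (e2 j0 hr.1.le)
    unfold cn at e3
    linarith
  · have h1 := (G_hasSum (a := conj (Λ i)) (by simpa using hlt i) 1).mapL (io p)
    refine mem_closure_of_tendsto h1 (Eventually.of_forall fun s => ?_)
    refine Submodule.sum_mem _ fun j _ => ?_
    rw [smul_pow, map_smul, pow_one]
    exact Submodule.smul_mem _ _ (Submodule.subset_span ⟨j, rfl⟩)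

end Pool.Agent.H.MP_459ac8_an
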